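import Mathlib
import Pool.Agent.H15.Sig

set_option autoImplicit false

namespace Pool.Agent.Results.MP_9a6b8c_lc.Contig

open Set

/-- the finite set with canonical index `u` -/
def D (u : ℕ) : Set ℕ := {i | u.testBit i = true}

/-- `Ψ^B` -/
def app (Ψ : Set (ℕ × ℕ)) (B : Set ℕ) : Set ℕ := {x | ∃ u, (x, u) ∈ Ψ ∧ D u ⊆ B}

/-- `A ≤_r B` -/
def Red (r : Set (Set (ℕ × ℕ))) (A B : Set ℕ) : Prop := ∃ Ψ ∈ r, A = app Ψ B

/-- `A ≡_r B` -/
def Eqv (r : Set (Set (ℕ × ℕ))) (A B : Set ℕ) : Prop := Red r A B ∧ Red r B A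

/-- `r` is a class of enumeration operators giving a reflexive and transitive relation, and the
degree of the empty set contains every r.e. set -/
def ProperERed (r : Set (Set (ℕ × ℕ))) : Prop :=
  (∀ Ψ ∈ r, REPred (· ∈ Ψ)) ∧ (∀ A, Red r A A) ∧ (∀ A B C, Red r A B → Red r B C → Red r A C) ∧
    ∀ W : Set ℕ, REPred (· ∈ W) → Eqv r W ∅

/-- pc-operators -/
def pc : Set (Set (ℕ × ℕ)) :=
  {Ψ | REPred (· ∈ Ψ) ∧ ∀ x, {E | ∃ u, (x, u) ∈ Ψ ∧ E = D u}.Subsingleton}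

/-- s-operators -/
def sop : Set (Set (ℕ × ℕ)) := {Ψ | REPred (· ∈ Ψ) ∧ ∀ x u, (x, u) ∈ Ψ → (D u).Subsingleton}

open Pool.Agent.H15.Sig Primrec

lemma D_lt {u i : ℕ} (h : i ∈ D u) : i < u :=
  Nat.lt_two_pow_self.trans_le (Nat.ge_two_pow_of_testBit h)

lemma D_zero : D 0 = ∅ := by ext i; simp [D]
lemma D_pow (i : ℕ) : D (2 ^ i) = {i} := by ext j; simp [D, Nat.testBit_two_pow, eq_comm]
lemma D_or (u v : ℕ) : D (u ||| v) = D u ∪ D v := by ext j; simp [D]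
lemma D_fin (u : ℕ) : (D u).Finite := (finite_lt_nat u).subset fun _ => D_lt
lemma D_inj {u v : ℕ} (h : D u = D v) : u = v :=
  Nat.eq_of_testBit_eq fun i => Bool.eq_iff_iff.2 (Set.ext_iff.1 h i)
lemma D_surj {S : Set ℕ} (h : S.Finite) : ∃ u, D u = S := by
  induction S, h using Set.Finite.induction_on with
  | empty => exact ⟨0, D_zero⟩
  | @insert a s _ _ ih =>
    obtain ⟨u, rfl⟩ := ih
    exact ⟨2 ^ a ||| u, by rw [D_or, D_pow]; rfl⟩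

lemma pc_iff {Ψ : Set (ℕ × ℕ)} :
    Ψ ∈ pc ↔ Sig (· ∈ Ψ) ∧ ∀ x u v, (x, u) ∈ Ψ → (x, v) ∈ Ψ → u = v :=
  ⟨fun h => ⟨of_re h.1, fun x u v hu hv => D_inj (h.2 x ⟨u, hu, rfl⟩ ⟨v, hv, rfl⟩)⟩,
    fun h => ⟨h.1.re, fun x _ ⟨u, hu, e⟩ _ ⟨v, hv, e'⟩ => by rw [e, e', h.2 x u v hu hv]⟩⟩

lemma pmem : PrimrecRel fun u i => i ∈ D u := prim_bit

lemma sball {α : Type} [Primcodable α] {p : α → ℕ → Prop} (hp : Sig fun x : α × ℕ => p x.1 x.2)
    {f : α → ℕ} (hf : Primrec f) : Sig fun a => ∀ n ∈ D (f a), p a n :=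
  (ball (p := fun a n => n ∈ D (f a) → p a n) (Sig.imp (pmem.comp (hf.comp fst) snd) hp) hf).of_eq
    fun _ => ⟨fun h n hn => h n (D_lt hn) hn, fun h n _ hn => h n hn⟩

def comp (Ψ Φ : Set (ℕ × ℕ)) : Set (ℕ × ℕ) :=
  {p | ∃ u, (p.1, u) ∈ Ψ ∧ (∀ y ∈ D u, ∃ v, (y, v) ∈ Φ ∧ ∀ z ∈ D v, z ∈ D p.2) ∧
    ∀ z ∈ D p.2, ∃ y, ∃ v, y ∈ D u ∧ (y, v) ∈ Φ ∧ z ∈ D v}

lemma comp_pc {Ψ Φ : Set (ℕ × ℕ)} (h1 : Ψ ∈ pc) (h2 : Φ ∈ pc) : comp Ψ Φ ∈ pc := by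
  rw [pc_iff] at *
  constructor
  · refine ex ((h1.1.comp ((fst.comp fst).pair snd)).and (Sig.and (sball (ex ?_) snd)
      (sball (ex (ex ?_)) (snd.comp fst))))
    · exact (h2.1.comp ((snd.comp fst).pair snd)).and (sball (prim (pmem.comp
        (snd.comp <| fst.comp <| fst.comp <| fst.comp fst) snd)) snd)
    · exact (prim (pmem.comp (snd.comp <| fst.comp <| fst.comp fst) (snd.comp fst))).and
        ((h2.1.comp ((snd.comp fst).pair snd)).and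
          (prim (pmem.comp snd (snd.comp <| fst.comp fst))))
  · have k : ∀ x w w', (x, w) ∈ comp Ψ Φ → (x, w') ∈ comp Ψ Φ → D w ⊆ D w' := by
      rintro x w w' ⟨u, hu, -, a⟩ ⟨u', hu', b, -⟩ z hz
      obtain rfl := h1.2 _ _ _ hu hu'
      obtain ⟨y, v, hy, hv, hz⟩ := a z hz
      obtain ⟨v', hv', c⟩ := b y hy
      exact c z (h2.2 _ _ _ hv hv' ▸ hz)
    exact fun x w w' a b => D_inj ((k _ _ _ a b).antisymm (k _ _ _ b a))

lemma comp_app {Ψ Φ : Set (ℕ × ℕ)} (C : Set ℕ) : app (comp Ψ Φ) C = app Ψ (app Φ C) := by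
  ext x
  constructor
  · rintro ⟨w, ⟨u, hu, a, -⟩, hw⟩
    refine ⟨u, hu, fun y hy => ?_⟩
    obtain ⟨v, hv, c⟩ := a y hy
    exact ⟨v, hv, fun z hz => hw (c z hz)⟩
  · rintro ⟨u, hu, h⟩
    replace h : ∀ y ∈ D u, ∃ v, (y, v) ∈ Φ ∧ D v ⊆ C := h
    choose! v hv hv' using h
    obtain ⟨w, hw⟩ := D_surj ((D_fin u).biUnion fun y _ => D_fin (v y))
    refine ⟨w, ⟨u, hu, fun y hy => ⟨v y, hv y hy, fun z hz => ?_⟩, fun z hz => ?_⟩, ?_⟩
    · exact hw ▸ mem_biUnion hy hz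
    · obtain ⟨y, hy, hz⟩ := mem_iUnion₂.1 (hw ▸ hz)
      exact ⟨y, v y, hy, hv y hy, hz⟩
    · rw [hw]; exact iUnion₂_subset fun y hy => hv' y hy

lemma comp_s {Ψ Φ : Set (ℕ × ℕ)} (h1 : Ψ ∈ pc ∩ sop) (h2 : Φ ∈ pc ∩ sop) :
    comp Ψ Φ ∈ pc ∩ sop := by
  refine ⟨comp_pc h1.1 h2.1, (comp_pc h1.1 h2.1).1, ?_⟩
  rintro x w ⟨u, hu, -, a⟩ z hz z' hz'
  obtain ⟨y, v, hy, hv, hz⟩ := a z hz
  obtain ⟨y', v', hy', hv', hz'⟩ := a z' hz'
  obtain rfl := h1.2.2 _ _ hu hy hy'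
  obtain rfl := (pc_iff.1 h2.1).2 _ _ _ hv hv'
  exact h2.2.2 _ _ hv hz hz'

lemma y_refl (A : Set ℕ) : Red (pc ∩ sop) A A := by
  have : {p : ℕ × ℕ | p.2 = 2 ^ p.1} ∈ pc := pc_iff.2
    ⟨prim (Primrec.eq.comp snd (prim_pow2.comp fst)), fun x u v a b => a.trans b.symm⟩
  refine ⟨_, ⟨this, this.1, ?_⟩, ?_⟩
  · rintro x u (rfl : u = 2 ^ x)
    rw [D_pow]; exact subsingleton_singleton
  · ext x
    simp [app, D_pow]

lemma y_prop (W : Set ℕ) (h : REPred (· ∈ W)) : Eqv (pc ∩ sop) W ∅ := by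
  constructor
  · have : {p : ℕ × ℕ | p.1 ∈ W ∧ p.2 = 0} ∈ pc := pc_iff.2
      ⟨((of_re h).comp fst).and (prim (Primrec.eq.comp snd (const 0))),
        fun x u v a b => a.2.trans b.2.symm⟩
    refine ⟨_, ⟨this, this.1, ?_⟩, ?_⟩
    · rintro x u ⟨-, (rfl : u = _)⟩
      rw [D_zero]; exact subsingleton_empty
    · ext x
      simp [app, D_zero]
  · have : (∅ : Set (ℕ × ℕ)) ∈ pc := pc_iff.2
      ⟨(prim (Primrec.eq.comp (const 0) (const 1))).of_eq (by simp), by simp⟩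
    exact ⟨_, ⟨this, this.1, by simp⟩, by simp [app]⟩

lemma yz {A B : Set ℕ} : Red (pc ∩ sop) A B → Red pc A B := fun ⟨Ψ, h, e⟩ => ⟨Ψ, h.1, e⟩

def le (a b : ℕ) : Prop := a.unpair.1 * (b.unpair.2 + 1) ≤ b.unpair.1 * (a.unpair.2 + 1)
noncomputable def val (a : ℕ) : ℝ := a.unpair.1 / (a.unpair.2 + 1)
lemma le_iff (a b : ℕ) : le a b ↔ val a ≤ val b := by
  rw [val, val, div_le_div_iff₀ (by positivity) (by positivity), le]
  norm_cast
lemma ple : PrimrecRel le :=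
  nat_le.comp (nat_mul.comp (fst.comp (unpair.comp fst)) (succ.comp (snd.comp (unpair.comp snd))))
    (nat_mul.comp (fst.comp (unpair.comp snd)) (succ.comp (snd.comp (unpair.comp fst))))

def Le (v w : ℕ) : Prop := ∀ a ∈ D v, ∃ b ∈ D w, le a b
lemma pLe : PrimrecRel Le := by
  have := pall (p := fun (x : ℕ × ℕ) a => ¬ a ∈ D x.1 ∨ ∃ b < x.2, b ∈ D x.2 ∧ le a b)
    (PrimrecPred.or (pmem.comp (fst.comp fst) snd).not
      (pex (p := fun (x : (ℕ × ℕ) × ℕ) b => b ∈ D x.1.2 ∧ le x.2 b)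
        (PrimrecPred.and (pmem.comp (snd.comp <| fst.comp fst) snd) (ple.comp (snd.comp fst) snd))
        (snd.comp fst))) fst
  refine this.of_eq fun x => ⟨fun h a ha => ?_, fun h a _ => ?_⟩
  · obtain ⟨b, -, hb⟩ := (h a (D_lt ha)).resolve_left (not_not.2 ha)
    exact ⟨b, hb⟩
  · by_cases ha : a ∈ D x.1
    · obtain ⟨b, hb, h⟩ := h a ha
      exact Or.inr ⟨b, D_lt hb, hb, h⟩
    · exact Or.inl ha
lemma Le_trans {u v w : ℕ} (h : Le u v) (h' : Le v w) : Le u w := fun a ha => by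
  obtain ⟨b, hb, h1⟩ := h a ha
  obtain ⟨c, hc, h2⟩ := h' b hb
  exact ⟨c, hc, (le_iff _ _).2 (((le_iff _ _).1 h1).trans ((le_iff _ _).1 h2))⟩
lemma Le_total (u v : ℕ) : Le u v ∨ Le v u := by
  by_contra h
  simp only [Le, le_iff, not_or, not_forall, not_exists, not_and, not_le] at h
  obtain ⟨⟨a, ha, h1⟩, b, hb, h2⟩ := h
  exact lt_asymm (h1 b hb) (h2 a ha)

lemma exists_top (v : ℕ → ℕ) {S : Set ℕ} (h : S.Finite) :
    S.Nonempty → ∃ y ∈ S, ∀ y' ∈ S, Le (v y') (v y) := by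
  induction S, h using Set.Finite.induction_on with
  | empty => exact fun h => absurd h (by simp)
  | @insert a s _ _ ih =>
    intro _
    have r : ∀ u, Le u u := fun u => (Le_total u u).elim id id
    rcases s.eq_empty_or_nonempty with rfl | hs
    · exact ⟨a, by simp, by simpa using r _⟩
    obtain ⟨y, hy, h⟩ := ih hs
    rcases Le_total (v a) (v y) with h' | h'
    · exact ⟨y, Or.inr hy, forall_mem_insert.2 ⟨h', h⟩⟩
    · exact ⟨a, Or.inl rfl, forall_mem_insert.2 ⟨r _, fun z hz => Le_trans (h z hz) h'⟩⟩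

def cut (α : ℝ) : Set ℕ := {n | val n < α}

lemma contig (α : ℝ) {B C : Set ℕ} (h1 : Red pc B (cut α)) (h2 : Red pc C B) :
    Red (pc ∩ sop) C B := by
  classical
  obtain ⟨Ψ, hΨ, hB⟩ := h1
  obtain ⟨Φ, hΦ, rfl⟩ := h2
  rw [pc_iff] at hΨ hΦ
  let Θ : Set (ℕ × ℕ) := {p | ∃ u, (p.1, u) ∈ Φ ∧ ((u = 0 ∧ p.2 = 0) ∨ ∃ y, ∃ v, y ∈ D u ∧
    p.2 = 2 ^ y ∧ (y, v) ∈ Ψ ∧ ∀ y' ∈ D u, ∃ v', (y', v') ∈ Ψ ∧ Le v' v ∧ (y' < y → ¬ Le v v'))}
  have hΘ : Θ ∈ pc := by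
    rw [pc_iff]
    constructor
    · refine ex ((hΦ.1.comp ((fst.comp fst).pair snd)).and (Sig.or (prim (PrimrecPred.and
        (Primrec.eq.comp snd (const 0)) (Primrec.eq.comp (snd.comp fst) (const 0)))) (ex (ex ?_))))
      refine (prim (pmem.comp (snd.comp <| fst.comp fst) (snd.comp fst))).and
        ((prim (Primrec.eq.comp (snd.comp <| fst.comp <| fst.comp fst)
          (prim_pow2.comp (snd.comp fst)))).and ((hΨ.1.comp ((snd.comp fst).pair snd)).and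
          (sball (ex ?_) (snd.comp <| fst.comp fst))))
      exact (hΨ.1.comp ((snd.comp fst).pair snd)).and
        ((prim (pLe.comp snd (snd.comp <| fst.comp fst))).and
          (Sig.imp (nat_lt.comp (snd.comp fst) (snd.comp <| fst.comp <| fst.comp fst))
            (prim (pLe.comp (snd.comp <| fst.comp fst) snd).not)))
    · rintro x w w' ⟨u, hu, a⟩ ⟨u', hu', b⟩
      obtain rfl := hΦ.2 _ _ _ hu hu'
      rcases a with ⟨rfl, (rfl : w = 0)⟩ | ⟨y, v, hy, (rfl : w = _), hv, a⟩ <;>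
        rcases b with ⟨e, (rfl : w' = 0)⟩ | ⟨y', v', hy', (rfl : w' = _), hv', b⟩
      · rfl
      · simp [D_zero] at hy'
      · simp [e, D_zero] at hy
      · obtain ⟨c, hc, c1, c2⟩ := a y' hy'
        obtain ⟨d, hd, d1, d2⟩ := b y hy
        obtain rfl := hΨ.2 _ _ _ hc hv'
        obtain rfl := hΨ.2 _ _ _ hd hv
        rcases lt_trichotomy y y' with h | h | h
        · exact absurd c1 (d2 h)
        · rw [h]
        · exact absurd d1 (c2 h)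
  refine ⟨Θ, ⟨hΘ, hΘ.1, ?_⟩, ?_⟩
  · rintro x w ⟨u, -, ⟨-, (rfl : w = 0)⟩ | ⟨y, v, -, (rfl : w = _), -⟩⟩
    · rw [D_zero]; exact subsingleton_empty
    · rw [D_pow]; exact subsingleton_singleton
  · ext x
    constructor
    · rintro ⟨u, hu, h⟩
      rcases (D u).eq_empty_or_nonempty with e | hne
      · exact ⟨0, ⟨u, hu, Or.inl ⟨D_inj (e.trans D_zero.symm), rfl⟩⟩, by simp [D_zero]⟩
      have h' : ∀ y ∈ D u, ∃ v, (y, v) ∈ Ψ ∧ D v ⊆ cut α := fun y hy => by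
        have := h hy
        rwa [hB] at this
      choose! v hv hv' using h'
      have hex := exists_top v (D_fin u) hne
      obtain ⟨k1, k2⟩ := Nat.find_spec hex
      refine ⟨2 ^ Nat.find hex, ⟨u, hu, Or.inr ⟨_, _, k1, rfl, hv _ k1, fun y hy =>
        ⟨v y, hv y hy, k2 y hy, fun hl hh => Nat.find_min hex hl
          ⟨hy, fun z hz => Le_trans (k2 z hz) hh⟩⟩⟩⟩, ?_⟩
      rw [D_pow]; exact singleton_subset_iff.2 (h k1)
    · rintro ⟨w, ⟨u, hu, ⟨rfl, -⟩ | ⟨y, v, -, (rfl : w = _), hv, a⟩⟩, hw⟩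
      · exact ⟨0, hu, by simp [D_zero]⟩
      · rw [D_pow, singleton_subset_iff, hB] at hw
        obtain ⟨v', hv', hw⟩ := hw
        obtain rfl := hΨ.2 _ _ _ hv hv'
        refine ⟨u, hu, fun y' hy' => ?_⟩
        obtain ⟨c, hc, c1, -⟩ := a y' hy'
        rw [hB]
        refine ⟨c, hc, fun t ht => ?_⟩
        obtain ⟨b, hb, h⟩ := c1 t ht
        exact ((le_iff _ _).1 h).trans_lt (hw hb)

lemma nonre : ∃ α, ¬ REPred (· ∈ cut α) := by
  by_contra h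
  push Not at h
  have hinj : InjOn cut (Ioi 0) := by
    have k : ∀ a b : ℝ, 0 < a → a < b → cut a ≠ cut b := by
      intro a b ha hab e
      obtain ⟨q, h1, h2⟩ := exists_rat_btwn hab
      have hq : 0 < q := by exact_mod_cast ha.trans h1
      have hv : val (Nat.pair q.num.toNat (q.den - 1)) = q := by
        rw [val, Nat.unpair_pair, Rat.cast_def]
        have h3 : ((q.num.toNat : ℤ) : ℝ) = q.num := by
          rw [Int.toNat_of_nonneg (Rat.num_pos.2 hq).le]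
        have h4 : ((q.den - 1 : ℕ) : ℝ) + 1 = q.den := by
          exact_mod_cast Nat.sub_add_cancel q.pos
        rw [h4, ← h3]; rfl
      have : Nat.pair q.num.toNat (q.den - 1) ∈ cut b := show val _ < b from hv ▸ h2
      rw [← e] at this
      exact lt_asymm h1 (hv ▸ this)
    intro a ha b hb e
    rcases lt_trichotomy a b with h | h | h
    · exact absurd e (k a b ha h)
    · exact h
    · exact absurd e.symm (k b a hb h)
  have := (countable_re (α := ℕ)).preimage_of_injOn (f := fun x : Ioi (0 : ℝ) => cut x)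
    fun a _ b _ e => Subtype.ext (hinj a.2 b.2 e)
  have h2 : (Ioi (0 : ℝ)).Countable := by
    rw [← countable_coe_iff, ← countable_univ_iff]
    exact this.mono fun a _ => h a
  rw [← Cardinal.le_aleph0_iff_set_countable, Cardinal.mk_Ioi_real] at h2
  exact Cardinal.aleph0_lt_continuum.not_ge h2

def sq (B : Set ℕ) : Set ℕ := {x | x.unpair.1 ∈ B ∧ x.unpair.2 ∈ B}

lemma sq_pc (B : Set ℕ) : Red pc (sq B) B := by
  refine ⟨{p | p.1.unpair.1 ∈ D p.2 ∧ p.1.unpair.2 ∈ D p.2 ∧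
    ∀ i ∈ D p.2, i = p.1.unpair.1 ∨ i = p.1.unpair.2}, pc_iff.2 ⟨?_, ?_⟩, ?_⟩
  · exact (prim (pmem.comp snd (fst.comp <| unpair.comp fst))).and
      ((prim (pmem.comp snd (snd.comp <| unpair.comp fst))).and (sball (prim (PrimrecPred.or
        (Primrec.eq.comp snd (fst.comp <| unpair.comp <| fst.comp fst))
        (Primrec.eq.comp snd (snd.comp <| unpair.comp <| fst.comp fst)))) snd))
  · intro x u v a b
    refine D_inj (Subset.antisymm (fun i hi => ?_) fun i hi => ?_)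
    · rcases a.2.2 i hi with rfl | rfl
      exacts [b.1, b.2.1]
    · rcases b.2.2 i hi with rfl | rfl
      exacts [a.1, a.2.1]
  · ext x
    constructor
    · intro h
      refine ⟨2 ^ x.unpair.1 ||| 2 ^ x.unpair.2, by simp [D_or, D_pow], ?_⟩
      rw [D_or, D_pow, D_pow]
      rintro _ (rfl | rfl)
      exacts [h.1, h.2]
    · rintro ⟨u, a, h⟩
      exact ⟨h a.1, h a.2.1⟩

lemma step (Ψ : Set (ℕ × ℕ)) (hΨ : Ψ ∈ pc ∩ sop) (N : ℕ) (F : Set ℕ) : ∃ p : ℕ × Set ℕ,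
    N < p.1 ∧ (∀ i < N, i ∈ p.2 ↔ i ∈ F) ∧
      ∀ B : Set ℕ, (∀ i < p.1, i ∈ B ↔ i ∈ p.2) → sq B ≠ app Ψ B := by
  have m : ∀ B : Set ℕ, Nat.pair N (N + 1) ∈ sq B ↔ N ∈ B ∧ N + 1 ∈ B := by simp [sq]
  have ag : ∀ T : Set ℕ, (∀ i ∈ T, N ≤ i) → ∀ i < N, i ∈ (F ∩ Iio N) ∪ T ↔ i ∈ F :=
    fun T hT i hi => ⟨fun h => h.elim (·.1) fun h => absurd (hT i h) (not_le.2 hi),
      fun h => Or.inl ⟨h, hi⟩⟩
  by_cases h : ∃ u, (Nat.pair N (N + 1), u) ∈ Ψ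
  · obtain ⟨u, hu⟩ := h
    by_cases h1 : D u ⊆ (F ∩ Iio N) ∪ {N}
    · refine ⟨(N + 2 + u, (F ∩ Iio N) ∪ {N}), by simp; omega, ag _ (by simp), fun B hB e => ?_⟩
      have : Nat.pair N (N + 1) ∈ sq B :=
        e ▸ ⟨u, hu, fun i hi => (hB i (by have := D_lt hi; simp; omega)).2 (h1 hi)⟩
      simpa using (hB (N + 1) (by simp; omega)).1 ((m B).1 this).2
    by_cases h2 : D u ⊆ (F ∩ Iio N) ∪ {N + 1}
    · refine ⟨(N + 2 + u, (F ∩ Iio N) ∪ {N + 1}), by simp; omega, ag _ (by simp), fun B hB e => ?_⟩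
      have : Nat.pair N (N + 1) ∈ sq B :=
        e ▸ ⟨u, hu, fun i hi => (hB i (by have := D_lt hi; simp; omega)).2 (h2 hi)⟩
      simpa using (hB N (by simp; omega)).1 ((m B).1 this).1
    refine ⟨(N + 2 + u, (F ∩ Iio N) ∪ {N, N + 1}), by simp; omega, ag _ (by simp), fun B hB e => ?_⟩
    have : Nat.pair N (N + 1) ∈ app Ψ B := e ▸ (m B).2
      ⟨(hB _ (by simp; omega)).2 (by simp), (hB _ (by simp; omega)).2 (by simp)⟩
    obtain ⟨v, hv, h⟩ := this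
    obtain rfl := (pc_iff.1 hΨ.1).2 _ _ _ hu hv
    obtain ⟨a, ha, ha'⟩ := not_subset.1 h1
    obtain ⟨b, hb, hb'⟩ := not_subset.1 h2
    obtain rfl := hΨ.2.2 _ _ hu ha hb
    rcases (hB a (by have := D_lt ha; simp; omega)).1 (h ha) with h | h | h
    · exact ha' (Or.inl h)
    · exact ha' (Or.inr h)
    · exact hb' (Or.inr h)
  · refine ⟨(N + 2, (F ∩ Iio N) ∪ {N, N + 1}), by simp, ag _ (by simp), fun B hB e => ?_⟩
    have : Nat.pair N (N + 1) ∈ app Ψ B := e ▸ (m B).2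
      ⟨(hB _ (by simp)).2 (by simp), (hB _ (by simp)).2 (by simp)⟩
    obtain ⟨v, hv, -⟩ := this
    exact h ⟨v, hv⟩

lemma distinct : ∃ B, ¬ Red (pc ∩ sop) (sq B) B := by
  have hc : (pc ∩ sop).Countable := countable_re.mono fun Ψ h => h.1.1
  obtain ⟨Ψ0, h0, -⟩ := y_refl ∅
  obtain ⟨e, he⟩ := hc.exists_eq_range ⟨Ψ0, h0⟩
  choose nx h1 h2 h3 using fun n => step (e n) (he ▸ mem_range_self n)
  let s : ℕ → ℕ × Set ℕ := fun n => Nat.rec (0, ∅) (fun n p => nx n p.1 p.2) n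
  have mono : StrictMono fun n => (s n).1 := strictMono_nat_of_lt_succ fun n => h1 n _ _
  have st : ∀ n m, n ≤ m → ∀ i < (s n).1, i ∈ (s m).2 ↔ i ∈ (s n).2 := by
    intro n m h
    induction m, h using Nat.le_induction with
    | base => exact fun _ _ => Iff.rfl
    | succ m h ih => exact fun i hi => (h2 m _ _ i (hi.trans_le (mono.monotone h))).trans (ih i hi)
  refine ⟨{i | i ∈ (s (i + 1)).2}, fun ⟨Ψ, hΨ, hh⟩ => ?_⟩
  obtain ⟨n, rfl⟩ := (he ▸ hΨ : Ψ ∈ range e)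
  refine h3 n (s n).1 (s n).2 _ (fun i hi => ?_) hh
  have hi' : i < (s (i + 1)).1 := (Nat.lt_succ_self i).trans_le (mono.id_le (i + 1))
  rcases le_total (i + 1) (n + 1) with h | h
  · exact (st _ _ h i hi').symm
  · exact st _ _ h i hi

theorem result :
    ProperERed (pc ∩ sop) ∧ ProperERed pc ∧ (∀ A B, Red (pc ∩ sop) A B → Red pc A B) ∧
    (∃ A B, Red pc A B ∧ ¬ Red (pc ∩ sop) A B) ∧
    ∃ A, ¬ Eqv pc A ∅ ∧ ∀ B C, Eqv pc B A → Eqv pc C A → Eqv (pc ∩ sop) B C := by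
  have tr : ∀ A B C, Red pc A B → Red pc B C → Red pc A C := by
    rintro _ _ C ⟨Ψ, h1, rfl⟩ ⟨Φ, h2, rfl⟩
    exact ⟨_, comp_pc h1 h2, (comp_app C).symm⟩
  refine ⟨⟨fun _ h => h.1.1, y_refl, ?_, y_prop⟩, ⟨fun _ h => h.1, fun A => yz (y_refl A), tr,
    fun W h => ⟨yz (y_prop W h).1, yz (y_prop W h).2⟩⟩, fun _ _ => yz, ?_, ?_⟩
  · rintro _ _ C ⟨Ψ, h1, rfl⟩ ⟨Φ, h2, rfl⟩
    exact ⟨_, comp_s h1 h2, (comp_app C).symm⟩
  · obtain ⟨B, hB⟩ := distinct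
    exact ⟨_, B, sq_pc B, hB⟩
  · obtain ⟨α, hα⟩ := nonre
    refine ⟨cut α, fun ⟨⟨Ψ, hΨ, e⟩, _⟩ => hα ?_, fun B C hB hC =>
      ⟨contig α hC.1 (tr _ _ _ hB.1 hC.2), contig α hB.1 (tr _ _ _ hC.1 hB.2)⟩⟩
    refine (((of_re hΨ.1).comp (Primrec.id.pair (const 0))).re).of_eq fun x => ?_
    rw [e]
    refine ⟨fun h => ⟨0, h, D_zero.subset⟩, fun ⟨u, hu, h⟩ => ?_⟩
    obtain rfl := D_inj ((subset_empty_iff.1 h).trans D_zero.symm)
    exact hu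

end Pool.Agent.Results.MP_9a6b8c_lc.Contig
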